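import Mathlib

/-!
# Monotone G-delta representatives of Lebesgue measurable sets

For a set `M` of reals let `psi M` be the set of points `x` such that for arbitrarily small `r > 0`
the interval `[x - r, x + r]` meets `M` in a set of (outer) measure greater than `r`, i.e. more than
half of the length of the interval.  This set is always a G-delta set, `psi` is monotone, `psi M` only
depends on the class of `M` modulo null sets, and `psi M` differs from `M` by a null set if `M` is
Lebesgue measurable, by the Lebesgue density theorem.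
-/

open MeasureTheory Set Filter Topology

namespace Pool.Agent.Results.MP_2abcfb_lc.MonotoneGdelta

/-- Points of upper symmetric density greater than one half at arbitrarily small scales. -/
def psi (M : Set ℝ) : Set ℝ :=
  ⋂ n : ℕ, ⋃ r ∈ Ioo (0 : ℝ) (1 / ((n : ℝ) + 1)),
    {x | ENNReal.ofReal r < volume (M ∩ Metric.closedBall x r)}

theorem volume_le_add (M : Set ℝ) (r x y : ℝ) :
    volume (M ∩ Metric.closedBall x r) ≤
      volume (M ∩ Metric.closedBall y r) + ENNReal.ofReal |x - y| := by
  have hsub : M ∩ Metric.closedBall x r ⊆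
      (M ∩ Metric.closedBall y r) ∪ (Metric.closedBall x r \ Metric.closedBall y r) := by
    intro z hz
    by_cases hzy : z ∈ Metric.closedBall y r
    · exact Or.inl ⟨hz.1, hzy⟩
    · exact Or.inr ⟨hz.2, hzy⟩
  have hdiff : volume (Metric.closedBall x r \ Metric.closedBall y r) ≤
      ENNReal.ofReal |x - y| := by
    rcases le_total x y with hxy | hxy
    · have h1 : Metric.closedBall x r \ Metric.closedBall y r ⊆ Icc (x - r) (y - r) := by
        intro z hz
        rw [Real.closedBall_eq_Icc, Real.closedBall_eq_Icc] at hz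
        obtain ⟨⟨hz1, hz2⟩, hz3⟩ := hz
        refine ⟨hz1, ?_⟩
        by_contra hcon
        exact hz3 ⟨le_of_lt (not_le.mp hcon), by linarith⟩
      calc volume (Metric.closedBall x r \ Metric.closedBall y r)
          ≤ volume (Icc (x - r) (y - r)) := measure_mono h1
        _ = ENNReal.ofReal |x - y| := by
            rw [Real.volume_Icc, abs_of_nonpos (by linarith)]
            congr 1
            ring
    · have h1 : Metric.closedBall x r \ Metric.closedBall y r ⊆ Icc (y + r) (x + r) := by
        intro z hz
        rw [Real.closedBall_eq_Icc, Real.closedBall_eq_Icc] at hz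
        obtain ⟨⟨hz1, hz2⟩, hz3⟩ := hz
        refine ⟨?_, hz2⟩
        by_contra hcon
        exact hz3 ⟨by linarith, le_of_lt (not_le.mp hcon)⟩
      calc volume (Metric.closedBall x r \ Metric.closedBall y r)
          ≤ volume (Icc (y + r) (x + r)) := measure_mono h1
        _ = ENNReal.ofReal |x - y| := by
            rw [Real.volume_Icc, abs_of_nonneg (by linarith)]
            congr 1
            ring
  calc volume (M ∩ Metric.closedBall x r)
      ≤ volume ((M ∩ Metric.closedBall y r) ∪ (Metric.closedBall x r \ Metric.closedBall y r)) :=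
        measure_mono hsub
    _ ≤ volume (M ∩ Metric.closedBall y r) +
        volume (Metric.closedBall x r \ Metric.closedBall y r) := measure_union_le _ _
    _ ≤ volume (M ∩ Metric.closedBall y r) + ENNReal.ofReal |x - y| := by gcongr

theorem isOpen_aux (M : Set ℝ) (r : ℝ) :
    IsOpen {x | ENNReal.ofReal r < volume (M ∩ Metric.closedBall x r)} := by
  rw [Metric.isOpen_iff]
  intro x hx
  simp only [mem_ofPred_eq] at hx
  obtain ⟨c, hc1, hc2⟩ := exists_between hx
  have hctop : c ≠ ⊤ := ne_top_of_lt hc2
  have hgap : 0 < c - ENNReal.ofReal r := tsub_pos_of_lt hc1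
  have hgaptop : c - ENNReal.ofReal r ≠ ⊤ := ne_top_of_le_ne_top hctop tsub_le_self
  refine ⟨(c - ENNReal.ofReal r).toReal, ENNReal.toReal_pos hgap.ne' hgaptop, ?_⟩
  intro y hy
  simp only [mem_ofPred_eq]
  by_contra hcon
  push Not at hcon
  have h1 := volume_le_add M r x y
  have h2 : ENNReal.ofReal |x - y| ≤ c - ENNReal.ofReal r := by
    rw [Metric.mem_ball, Real.dist_eq, abs_sub_comm] at hy
    calc ENNReal.ofReal |x - y| ≤ ENNReal.ofReal (c - ENNReal.ofReal r).toReal :=
          ENNReal.ofReal_le_ofReal hy.le
      _ = c - ENNReal.ofReal r := ENNReal.ofReal_toReal hgaptop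
  have h3 : volume (M ∩ Metric.closedBall x r) ≤ c := by
    calc volume (M ∩ Metric.closedBall x r)
        ≤ volume (M ∩ Metric.closedBall y r) + ENNReal.ofReal |x - y| := h1
      _ ≤ ENNReal.ofReal r + (c - ENNReal.ofReal r) := by gcongr
      _ = c := add_tsub_cancel_of_le hc1.le
  exact absurd hc2 (not_lt.mpr h3)

theorem isGdelta_psi (M : Set ℝ) : IsGδ (psi M) := by
  unfold psi
  exact IsGδ.iInter_of_isOpen fun n => isOpen_biUnion fun r _ => isOpen_aux M r

theorem psi_mono {M M' : Set ℝ} (h : M ⊆ M') : psi M ⊆ psi M' := by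
  intro x hx
  simp only [psi, mem_iInter, mem_iUnion, mem_ofPred_eq] at hx ⊢
  intro n
  obtain ⟨r, hr, hlt⟩ := hx n
  exact ⟨r, hr, lt_of_lt_of_le hlt (measure_mono (inter_subset_inter_left _ h))⟩

theorem psi_congr {M M' : Set ℝ} (h : M =ᵐ[volume] M') : psi M = psi M' := by
  have key : ∀ x r, volume (M ∩ Metric.closedBall x r) = volume (M' ∩ Metric.closedBall x r) :=
    fun x r => measure_congr (h.inter (ae_eq_refl _))
  simp only [psi, key]

theorem psi_ae_eq_of_measurable {N : Set ℝ} (hN : MeasurableSet N) : psi N =ᵐ[volume] N := by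
  have h := Besicovitch.ae_tendsto_measure_inter_div_of_measurableSet (volume : Measure ℝ) hN
  rw [Filter.eventuallyEq_set]
  filter_upwards [h] with x hx
  have hball : ∀ r : ℝ, 0 < r → volume (Metric.closedBall x r) = 2 * ENNReal.ofReal r := by
    intro r hr
    rw [Real.volume_closedBall, ENNReal.ofReal_mul (by norm_num)]
    norm_num
  constructor
  · intro hxpsi
    by_contra hxN
    rw [indicator_of_notMem hxN] at hx
    have hev : ∀ᶠ r in 𝓝[>] (0 : ℝ),
        volume (N ∩ Metric.closedBall x r) / volume (Metric.closedBall x r) < 1 / 2 :=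
      hx.eventually (gt_mem_nhds (by norm_num))
    rw [eventually_nhdsWithin_iff, Metric.eventually_nhds_iff] at hev
    obtain ⟨ε, hε, hev⟩ := hev
    obtain ⟨n, hn⟩ := exists_nat_one_div_lt hε
    simp only [psi, mem_iInter, mem_iUnion, mem_ofPred_eq] at hxpsi
    obtain ⟨r, hr, hlt⟩ := hxpsi n
    have hr0 : 0 < r := hr.1
    have hrε : r < ε := hr.2.trans hn
    have h1 := hev (y := r) (by rw [Real.dist_eq, sub_zero, abs_of_pos hr0]; exact hrε) hr0
    rw [hball r hr0] at h1
    have hpos : ENNReal.ofReal r ≠ 0 := by simpa using hr0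
    have h2 : volume (N ∩ Metric.closedBall x r) < 1 / 2 * (2 * ENNReal.ofReal r) := by
      rwa [ENNReal.div_lt_iff] at h1
      · left
        exact mul_ne_zero (by norm_num) hpos
      · left
        exact ENNReal.mul_ne_top (by norm_num) ENNReal.ofReal_ne_top
    rw [← mul_assoc, ENNReal.div_mul_cancel (by norm_num) (by norm_num), one_mul] at h2
    exact absurd h2 (not_lt.mpr hlt.le)
  · intro hxN
    rw [indicator_of_mem hxN, Pi.one_apply] at hx
    have hev : ∀ᶠ r in 𝓝[>] (0 : ℝ),
        1 / 2 < volume (N ∩ Metric.closedBall x r) / volume (Metric.closedBall x r) :=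
      hx.eventually (lt_mem_nhds (ENNReal.half_lt_self one_ne_zero ENNReal.one_ne_top))
    simp only [psi, mem_iInter, mem_iUnion, mem_ofPred_eq]
    intro n
    have hn : (0 : ℝ) < 1 / ((n : ℝ) + 1) := by positivity
    obtain ⟨r, hr1, hr2⟩ := (hev.and (Ioo_mem_nhdsGT hn)).exists
    refine ⟨r, hr2, ?_⟩
    have hr0 : 0 < r := hr2.1
    rw [hball r hr0] at hr1
    have hpos : ENNReal.ofReal r ≠ 0 := by simpa using hr0
    have h2 : 1 / 2 * (2 * ENNReal.ofReal r) < volume (N ∩ Metric.closedBall x r) := by
      rwa [ENNReal.lt_div_iff_mul_lt] at hr1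
      · left
        exact mul_ne_zero (by norm_num) hpos
      · left
        exact ENNReal.mul_ne_top (by norm_num) ENNReal.ofReal_ne_top
    rwa [← mul_assoc, ENNReal.div_mul_cancel (by norm_num) (by norm_num), one_mul] at h2

theorem psi_ae_eq {M : Set ℝ} (hM : NullMeasurableSet M volume) : psi M =ᵐ[volume] M := by
  obtain ⟨N, -, hN, hNM⟩ := hM.exists_measurable_superset_ae_eq
  rw [← psi_congr hNM]
  exact (psi_ae_eq_of_measurable hN).trans hNM

/-- There is a monotone map from the Lebesgue measurable subsets of the line to the G-delta subsets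
which chooses a representative modulo null sets and which depends only on the class modulo null
sets. -/
theorem result :
    ∃ ψ : {M : Set ℝ // NullMeasurableSet M (volume : Measure ℝ)} → {G : Set ℝ // IsGδ G},
      Monotone ψ ∧
      (∀ M, volume (symmDiff M.1 (ψ M).1) = 0) ∧
      (∀ M M', volume (symmDiff M.1 M'.1) = 0 → ψ M = ψ M') := by
  refine ⟨fun M => ⟨psi M.1, isGdelta_psi M.1⟩, ?_, ?_, ?_⟩
  · intro M M' h
    exact psi_mono h
  · intro M
    rw [measure_symmDiff_eq_zero_iff]
    exact (psi_ae_eq M.2).symm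
  · intro M M' h
    rw [measure_symmDiff_eq_zero_iff] at h
    exact Subtype.ext (psi_congr h)

end Pool.Agent.Results.MP_2abcfb_lc.MonotoneGdelta
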